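import Pool.Agent.H55.AC.Subgroup
import Pool.Agent.H55.SC.Main

/-!
# Hadwiger's conjecture for large Cayley graphs of abelian groups

A large connected Cayley graph with `s` generators of an abelian group is a quotient of a Cayley
graph of an infinite abelian group `G` with at most `s` generators by a subgroup without short
elements (compactness). If `G` has three independent edge differences that are not a basis of a
plane, it has arbitrarily large clique minors. If `G` is a plane lattice, its graph is planar or
has large clique minors. If `G` has rank one, the quotient is a long ring. The vertices of a ring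
are moved by carriers: the classes modulo the longest edge are the tracks, one track is vacant, and
carriers change to the vacant track; since a Cayley graph of degree at least three on an abelian
group is 3-connected (Kneser's theorem), any two carriers can be made adjacent. Each carrier is cut
twice and the ends are glued around the ring. This gives almost twice as many branch sets as tracks,
while the number of tracks plus two is an upper bound for the chromatic number.
-/

namespace Pool.Agent.Results.MP_b47bfb_co.AbelianCayleyGraphs

open Pool.Agent.H55.SC Pool.Agent.H55.AC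

/-- (1) For every `s` there is `N` such that every Cayley graph of a finite abelian group with at
most `s` generators and components of size at least `N` satisfies Hadwiger's conjecture.
(2) For circulant graphs `C_n(D)` with `D ⊆ {1, ..., d}` this holds as soon as `n ≥ 4 d ^ 6`. If
moreover `d ∈ D`, the elements of `D` have no common divisor and `D` is not contained in a set
`{a, d - a, d}`, then `K_{2d-2}` is a minor of `C_n(D)` and `K_{2d+2}` is not, while `C_n(D)` is
`(d + 2)`-colourable. -/
theorem result :
    (∀ s : ℕ, ∃ N : ℕ, ∀ (Γ : Type) [AddCommGroup Γ] [Finite Γ] (S : Finset Γ), S.card ≤ s →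
      N ≤ Nat.card (AddSubgroup.closure (S : Set Γ)) →
      ∀ k : ℕ, ¬ (SimpleGraph.circulantGraph (S : Set Γ)).Colorable k →
        CliqueMinor (SimpleGraph.circulantGraph (S : Set Γ)) (k + 1)) ∧
    (∀ (n d : ℕ) (D : Finset ℕ), 0 < n → (∀ δ ∈ D, 1 ≤ δ ∧ δ ≤ d) → 4 * d ^ 6 ≤ n →
      (∀ k, ¬ (circ n D).Colorable k → CliqueMinor (circ n D) (k + 1)) ∧
      (d ∈ D → D.gcd id = 1 → (∀ a, ¬ D ⊆ {a, d - a, d}) →
        CliqueMinor (circ n D) (2 * d - 2) ∧ ¬ CliqueMinor (circ n D) (2 * d + 2) ∧
        (circ n D).Colorable (d + 2))) := by
  refine ⟨fun s => ?_, ?_⟩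
  · obtain ⟨N, hN⟩ := hadwiger_abelian s
    exact ⟨N, fun Γ _ _ S hcard hlarge => hN Γ S hcard hlarge⟩
  intro n d D hn hD hdn
  refine ⟨fun k hk => hadwiger_circ hn hD hdn hk, ?_⟩
  intro hdD hgcd hno
  have hd1 := (hD d hdD).1
  have hd3 : 3 ≤ d := by
    by_contra hlt
    have hd12 : d = 1 ∨ d = 2 := by omega
    apply hno 1
    intro δ hδ
    have := hD δ hδ
    simp only [Finset.mem_insert, Finset.mem_singleton]
    omega
  have hg : ∀ k : ℕ, (∀ δ ∈ D, k ∣ δ) → k = 1 := by
    intro k hk
    have : k ∣ D.gcd id := Finset.dvd_gcd hk
    rw [hgcd] at this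
    exact Nat.dvd_one.1 this
  have h4 : 4 ≤ (Pool.Agent.H55.SC.BB d D).card := by
    by_contra h4
    obtain ⟨a, _, _, _, hall⟩ := two_gen hd3 hdD hD hg h4
    apply hno a
    intro δ hδ
    simp only [Finset.mem_insert, Finset.mem_singleton]
    exact hall δ hδ
  have : NeZero n := ⟨hn.ne'⟩
  have hpow : d ^ 2 ≤ d ^ 6 := Nat.pow_le_pow_right hd1 (by norm_num)
  have hdn' : d < n := by nlinarith
  refine ⟨minorA hd3 hdD hD hg h4 hdn, ?_, colorable_two hd1 hD (by nlinarith)⟩
  intro h
  have := upper hD hdn' h
  omega

end Pool.Agent.Results.MP_b47bfb_co.AbelianCayleyGraphs
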