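import Pool.Agent.H65.TW.Bridge

/-!
MP_b47bfb_co: clique minors in graphs in which most pairs of vertices have few common
non-neighbours.

A smallest counterexample to Hadwiger's conjecture, or to its off-by-one form, on `n` vertices has a
vertex which has more than `√(n / C)` common non-neighbours with each of more than `n / C` other
vertices, `C = 10 ^ 7`. The bound `√n` cannot be replaced by a large multiple of `√(n log n)` in the
theorem on `K_{⌈n/2⌉}` minors behind this.
-/

set_option autoImplicit false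

namespace Pool.Agent.Results.MP_b47bfb_co.CommonNonNeighbours

/-- `K_k` is a minor of `G`: there are `k` pairwise disjoint vertex sets, each inducing a connected
subgraph, any two of them joined by an edge of `G`. -/
def HasCliqueMinor {V : Type} (G : SimpleGraph V) (k : ℕ) : Prop :=
  ∃ f : Fin k → Set V,
    (∀ i, (G.induce (f i)).Connected) ∧
    (∀ i j, i ≠ j → Disjoint (f i) (f j)) ∧
    (∀ i j, i ≠ j → ∃ u ∈ f i, ∃ v ∈ f j, G.Adj u v)

/-- The set of non-neighbours of `x` (without `x` itself). -/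
def NonNbr {V : Type} (G : SimpleGraph V) (x : V) : Set V := {y | x ≠ y ∧ ¬ G.Adj x y}

/-- For `e = 1`: Hadwiger's conjecture holds for `G`. For `e = 0`: Q1 holds for `G`. -/
def Holds {V : Type} (G : SimpleGraph V) (e : ℕ) : Prop :=
  ∀ k : ℕ, ¬ G.Colorable k → HasCliqueMinor G (k + e)

/-- Every vertex `x` has more than `√(m / 10 ^ 7)` common non-neighbours with at most `m / 10 ^ 7`
other vertices `y`. -/
def FewCommon {V : Type} (G : SimpleGraph V) (m : ℕ) : Prop :=
  ∀ x, 10 ^ 7 * {y | x ≠ y ∧ m < 10 ^ 7 * (NonNbr G x ∩ NonNbr G y).ncard ^ 2}.ncard ≤ m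

/-- (1) Let `G` be a graph on `n` vertices such that every vertex has at least `n / 20` neighbours
and has more than `√(n / 10 ^ 7)` common non-neighbours with at most `n / 10 ^ 7` other vertices.
Then `G` has a `K_{⌈n/2⌉}` minor.
(2) Let `G` be vertex-critical: not `k`-colourable, but `k`-colourable after the removal of any
vertex. Let `m` be the number of vertices which have a non-neighbour. If every vertex has more than
`√(m / 10 ^ 7)` common non-neighbours with at most `m / 10 ^ 7` other vertices, then `K_{k+1}` is a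
minor of `G`.
(3) If Hadwiger's conjecture (`e = 1`) or Q1 (`e = 0`) fails for `G`, then it fails for an induced
subgraph `G[U]` in which some vertex has more than `√(|U| / 10 ^ 7)` common non-neighbours with each
of more than `|U| / 10 ^ 7` other vertices.
(4) If any two vertices of `G` have at most `t` common non-neighbours and Hadwiger's conjecture
(or Q1) fails for `G`, then it fails for an induced subgraph on fewer than `10 ^ 7 t ^ 2` vertices.
(5) If for every vertex `x` there are at most `P` pairs `(y, z)` such that `y` is a non-neighbour of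
`x` and `z` a non-neighbour of `y`, and Hadwiger's conjecture (or Q1) fails for `G`, then it fails
for an induced subgraph on `u` vertices, where `u ^ 3 < 10 ^ 21 P ^ 2`.
(6) For every `n ≥ 3` there is a graph on `n` vertices without a `K_{⌈n/2⌉}` minor in which every
vertex has at most `31 n ^ (3 / 4) (log n) ^ (1 / 4)` non-neighbours and, for all real `c > 0`, more
than `961 c √(n log n)` common non-neighbours with at most `n / c` other vertices. -/
theorem result :
    (∀ (V : Type) [Fintype V] (G : SimpleGraph V), FewCommon G (Fintype.card V) →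
      (∀ x : V, Fintype.card V ≤ 20 * {y | G.Adj x y}.ncard) →
      HasCliqueMinor G ((Fintype.card V + 1) / 2)) ∧
    (∀ (V : Type) [Fintype V] (G : SimpleGraph V) (k : ℕ),
      FewCommon G {x : V | (NonNbr G x).Nonempty}.ncard →
      (∀ v : V, (G.induce {v}ᶜ).Colorable k) → ¬ G.Colorable k → HasCliqueMinor G (k + 1)) ∧
    (∀ (V : Type) [Fintype V] (G : SimpleGraph V) (e : ℕ), e ≤ 1 → ¬ Holds G e →
      ∃ U : Set V, ¬ Holds (G.induce U) e ∧ ¬ FewCommon (G.induce U) U.ncard) ∧
    (∀ (V : Type) [Fintype V] (G : SimpleGraph V) (e t : ℕ), e ≤ 1 → ¬ Holds G e →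
      (∀ x y : V, x ≠ y → (NonNbr G x ∩ NonNbr G y).ncard ≤ t) →
      ∃ U : Set V, ¬ Holds (G.induce U) e ∧ U.ncard < 10 ^ 7 * t ^ 2) ∧
    (∀ (V : Type) [Fintype V] (G : SimpleGraph V) (e P : ℕ), e ≤ 1 → ¬ Holds G e →
      (∀ x : V, {p : V × V | p.1 ∈ NonNbr G x ∧ p.2 ∈ NonNbr G p.1}.ncard ≤ P) →
      ∃ U : Set V, ¬ Holds (G.induce U) e ∧ U.ncard ^ 3 < 10 ^ 21 * P ^ 2) ∧
    (∀ n : ℕ, 3 ≤ n → ∃ G : SimpleGraph (Fin n),
      (∀ x, ((NonNbr G x).ncard : ℝ) ≤
        31 * (n : ℝ) ^ ((3 : ℝ) / 4) * Real.log n ^ ((1 : ℝ) / 4)) ∧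
      (∀ c : ℝ, 0 < c → ∀ x, ({y | x ≠ y ∧ 961 * c * Real.sqrt (n * Real.log n) <
        ((NonNbr G x ∩ NonNbr G y).ncard : ℝ)}.ncard : ℝ) ≤ n / c) ∧
      ¬ HasCliqueMinor G ((n + 1) / 2)) := by
  have hloc : ∀ (V : Type) [Fintype V] (G : SimpleGraph V) (e : ℕ), e ≤ 1 → ¬ Holds G e →
      ∃ U : Set V, ¬ Holds (G.induce U) e ∧ ¬ FewCommon (G.induce U) U.ncard :=
    fun V _ G e he h => Pool.Agent.H65.TW.local_form G e he h
  have hwalk : ∀ (V : Type) [Fintype V] (G : SimpleGraph V) (e P : ℕ), e ≤ 1 → ¬ Holds G e →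
      (∀ x : V, {p : V × V | p.1 ∈ NonNbr G x ∧ p.2 ∈ NonNbr G p.1}.ncard ≤ P) →
      ∃ U : Set V, ¬ Holds (G.induce U) e ∧ U.ncard ^ 3 < 10 ^ 21 * P ^ 2 := by
    intro V _ G e P he h hP
    obtain ⟨U, h1, h2⟩ := hloc V G e he h
    obtain ⟨x, hx⟩ := Pool.Agent.H65.TW.walks_of_not (G.induce U) U.ncard h2
    refine ⟨U, h1, lt_of_lt_of_le hx (Nat.mul_le_mul_left _ (Nat.pow_le_pow_left ?_ 2))⟩
    exact (Pool.Agent.H65.TW.walks_induce G U x).trans (hP x.1)
  refine ⟨?_, ?_, hloc, ?_, hwalk, ?_⟩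
  · intro V _ G hC hG
    classical
    refine Pool.Agent.H65.TW.half G ((Pool.Agent.H65.TW.cond_iff G _).2 hC) (fun x => ?_)
    have := hG x
    rw [Set.ncard_eq_toFinset_card', Set.toFinset_ofPred] at this
    convert this
  · intro V _ G k hC hcol hk
    exact Pool.Agent.H65.TW.crit G ((Pool.Agent.H65.TW.cond_iff G _).2 hC) k hcol hk
  · intro V _ G e t he h ht
    obtain ⟨U, h1, h2⟩ := hloc V G e he h
    refine ⟨U, h1, ?_⟩
    unfold FewCommon at h2
    push Not at h2
    obtain ⟨x, hx⟩ := h2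
    have hne : {y : U | x ≠ y ∧ U.ncard < 10 ^ 7 *
        (NonNbr (G.induce U) x ∩ NonNbr (G.induce U) y).ncard ^ 2}.Nonempty := by
      rw [← Set.ncard_pos (Set.toFinite _)]
      by_contra hcon
      rw [Nat.eq_zero_of_not_pos hcon] at hx
      omega
    obtain ⟨y, hxy, hy⟩ := hne
    refine lt_of_lt_of_le hy (Nat.mul_le_mul_left _ (Nat.pow_le_pow_left ?_ 2))
    exact (Pool.Agent.H65.TW.common_induce G U x y).trans
      (ht x.1 y.1 (fun h => hxy (Subtype.ext h)))
  · intro n hn
    exact Pool.Agent.H65.TW.sharp n hn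

end Pool.Agent.Results.MP_b47bfb_co.CommonNonNeighbours
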