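import Pool.Agent.H81.LG.Main

/-!
MP_b47bfb_co: Hadwiger's conjecture, and so Q1, for complements of line graphs and, more generally,
for all finite disjointness graphs of sets of at most two points.

## Outline of the proof

Let `E` be the set of edges of a simple graph `F`, `H` the disjointness graph of `E` (the complement
of the line graph of `F`), and let `H` be not `k`-colourable.  A colouring of `H` is a cover of `E` by
stars and triangles.  We may assume that every `H - e` is `k`-colourable and that `F` is connected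
(otherwise `H` is a join).  Every choice of an owner (an end) for each edge gives a colouring; flipping
owners along a walk shows that all parities can be prescribed, and so `|E| ≥ 2 k + 1`.

* If `|E| = 2 k + 1` then parities and a lemma on bridges of `F` show that `F` has maximum degree two;
  then `H` is `2K₂`-free and the earlier result for `2K₂`-free graphs applies.
* If `|E| ≥ 2 k + 2` then `H` has a matching of `k + 1` pairs.  Take one in which the number of
  different spans (a pair `{ab, cd}` spans `{a, b, c, d}`) is as large as possible.  Two pairs of the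
  matching are joined unless they have the same span.  Exchange arguments show that if two pairs
  have the same span `Q` then nearly all edges have both ends in `Q`, and either `F` is not connected
  or `E` has a cover by `k` stars and triangles.
-/

set_option autoImplicit false

namespace Pool.Agent.Results.MP_b47bfb_co.ComplementsOfLineGraphs

open Pool.Agent.H81.LG

/-- `K_k` is a minor of `G`: there are `k` pairwise disjoint vertex sets, each inducing a connected
subgraph, any two of them joined by an edge of `G`. -/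
def HasCliqueMinor {V : Type} (G : SimpleGraph V) (k : ℕ) : Prop :=
  ∃ f : Fin k → Set V,
    (∀ i, (G.induce (f i)).Connected) ∧
    (∀ i j, i ≠ j → Disjoint (f i) (f j)) ∧
    (∀ i j, i ≠ j → ∃ u ∈ f i, ∃ v ∈ f j, G.Adj u v)

/-- `K_k` is a minor of `G` with branch sets of at most two vertices: every branch set is a vertex
or (the vertex set of) an edge. -/
def HasSmallCliqueMinor {V : Type} (G : SimpleGraph V) (k : ℕ) : Prop :=
  ∃ f : Fin k → Set V,
    (∀ i, (f i).encard ≤ 2) ∧
    (∀ i, (G.induce (f i)).Connected) ∧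
    (∀ i j, i ≠ j → Disjoint (f i) (f j)) ∧
    (∀ i j, i ≠ j → ∃ u ∈ f i, ∃ v ∈ f j, G.Adj u v)

/-- `G` is a disjointness graph of sets of at most two points: the vertices `u` of `G` can be given
sets `s u` of at most two points (repetitions are allowed) such that two different vertices are
adjacent if and only if their sets are disjoint. -/
def PairGraph {U : Type} (G : SimpleGraph U) : Prop :=
  ∃ (P : Type) (s : U → Finset P), (∀ u, (s u).card ≤ 2) ∧
    ∀ u w, G.Adj u w ↔ u ≠ w ∧ Disjoint (s u) (s w)

/-- Q1 holds for `G`: if `G` is not `j`-colourable then `K_j` is a minor of `G`. -/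
def OffByOne {V : Type} (G : SimpleGraph V) : Prop :=
  ∀ j : ℕ, ¬ G.Colorable j → HasCliqueMinor G j

theorem induce_pair_connected {U : Type} (G : SimpleGraph U) {x y : U} (h : G.Adj x y) :
    (G.induce {x, y}).Connected :=
  SimpleGraph.induce_pair_connected_of_adj h

theorem induce_single_connected {U : Type} (G : SimpleGraph U) (x : U) :
    (G.induce {x}).Connected := by
  have : Nonempty ({x} : Set U) := ⟨⟨x, rfl⟩⟩
  refine SimpleGraph.Connected.mk ?_
  rintro ⟨a, ha⟩ ⟨b, hb⟩
  rw [Set.mem_singleton_iff] at ha hb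
  subst ha
  subst hb
  exact SimpleGraph.Reachable.refl _

/-- encoding of a set of at most two points by a pair of different points -/
theorem encode {U P : Type} (s : U → Finset P) (hs : ∀ u, (s u).card ≤ 2) :
    ∃ φ : U → Sym2 (P ⊕ (U × Bool)), (∀ u, ¬ (φ u).IsDiag) ∧
      ∀ u w, u ≠ w → (Tch (φ u) (φ w) ↔ ¬ Disjoint (s u) (s w)) := by
  classical
  have h1 : ∀ u, ∃ e : Sym2 (P ⊕ (U × Bool)), ¬ e.IsDiag ∧
      (∀ p, Sum.inl p ∈ e ↔ p ∈ s u) ∧ ∀ w b, Sum.inr (w, b) ∈ e → w = u := by
    intro u
    have h2 := hs u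
    rcases Nat.lt_or_ge (s u).card 1 with h3 | h3
    · have h4 : s u = ∅ := Finset.card_eq_zero.1 (by omega)
      refine ⟨s(Sum.inr (u, false), Sum.inr (u, true)), by simp, ?_, ?_⟩
      · intro p
        rw [h4]
        simp
      · intro w b hw
        rw [Sym2.mem_iff] at hw
        simp only [Sum.inr.injEq, Prod.mk.injEq] at hw
        tauto
    · rcases Nat.lt_or_ge (s u).card 2 with h5 | h5
      · obtain ⟨q, hq⟩ := Finset.card_eq_one.1 (show (s u).card = 1 by omega)
        refine ⟨s(Sum.inl q, Sum.inr (u, true)), by simp, ?_, ?_⟩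
        · intro p
          rw [hq]
          simp
        · intro w b hw
          rw [Sym2.mem_iff] at hw
          simp only [reduceCtorEq, Sum.inr.injEq, Prod.mk.injEq, false_or] at hw
          exact hw.1
      · obtain ⟨q, r, hqr, hq⟩ := Finset.card_eq_two.1 (show (s u).card = 2 by omega)
        refine ⟨s(Sum.inl q, Sum.inl r), by simpa using hqr, ?_, ?_⟩
        · intro p
          rw [hq]
          simp
        · intro w b hw
          rw [Sym2.mem_iff] at hw
          simp at hw
  choose φ h2 h3 h4 using h1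
  refine ⟨φ, h2, ?_⟩
  intro u w huw
  rw [Finset.not_disjoint_iff]
  constructor
  · rintro ⟨v, hv, hv'⟩
    rcases v with p | ⟨q, b⟩
    · exact ⟨p, (h3 u p).1 hv, (h3 w p).1 hv'⟩
    · exact absurd ((h4 u q b hv).symm.trans (h4 w q b hv')) huw
  · rintro ⟨p, hp, hp'⟩
    exact ⟨Sum.inl p, (h3 u p).2 hp, (h3 w p).2 hp'⟩

theorem part1 (U : Type) [Finite U] (G : SimpleGraph U) (hG : PairGraph G) (k : ℕ)
    (hk : ¬ G.Colorable k) : HasSmallCliqueMinor G (k + 1) := by
  classical
  have := Fintype.ofFinite U
  obtain ⟨P, s, hs, hadj⟩ := hG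
  obtain ⟨φ, h1, h2⟩ := encode s hs
  have hadj' : ∀ u w, G.Adj u w ↔ u ≠ w ∧ ¬ Tch (φ u) (φ w) := by
    intro u w
    rw [hadj]
    constructor
    · rintro ⟨a1, a2⟩
      exact ⟨a1, fun h => (h2 u w a1).1 h a2⟩
    · rintro ⟨a1, a2⟩
      refine ⟨a1, ?_⟩
      by_contra h
      exact a2 ((h2 u w a1).2 h)
  let E : Finset (Sym2 (P ⊕ (U × Bool))) := Finset.univ.image φ
  have hE : ∀ e ∈ E, ∃ u, φ u = e := by
    intro e he
    obtain ⟨u, _, hu⟩ := Finset.mem_image.1 he
    exact ⟨u, hu⟩
  have hloop : ∀ e ∈ E, ¬ e.IsDiag := by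
    intro e he
    obtain ⟨u, rfl⟩ := hE e he
    exact h1 u
  have hcol : ¬ Col E k := by
    rintro ⟨c, c1, c2⟩
    apply hk
    have hmem : ∀ u, c (φ u) ∈ E.image c := fun u =>
      Finset.mem_image_of_mem _ (Finset.mem_image_of_mem _ (Finset.mem_univ u))
    have hC : G.Colorable (Fintype.card (E.image c)) :=
      SimpleGraph.Coloring.colorable (SimpleGraph.Coloring.mk
        (fun u => (⟨c (φ u), hmem u⟩ : E.image c)) (by
          intro u w huw h3
          have h4 : c (φ u) = c (φ w) := congrArg Subtype.val h3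
          exact ((hadj' u w).1 huw).2 (c2 _ (Finset.mem_image_of_mem _ (Finset.mem_univ u)) _
            (Finset.mem_image_of_mem _ (Finset.mem_univ w)) h4)))
    rw [Fintype.card_coe] at hC
    exact hC.mono c1
  obtain ⟨B, ⟨b1, b2⟩, b3⟩ := main _ E k rfl hloop hcol
  -- representatives
  have hr : ∀ e : Sym2 (P ⊕ (U × Bool)), ∃ u : U, e ∈ E → φ u = e := by
    intro e
    by_cases he : e ∈ E
    · obtain ⟨u, hu⟩ := hE e he
      exact ⟨u, fun _ => hu⟩
    · have hne : Nonempty U := by
        by_contra hemp
        rw [not_nonempty_iff] at hemp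
        apply hk
        exact (SimpleGraph.colorable_zero_iff.2 hemp).mono (Nat.zero_le _)
      exact ⟨hne.some, fun h => absurd h he⟩
  choose r hr using hr
  have hBE : ∀ X ∈ B, X ⊆ E := by
    intro X hX
    obtain ⟨e, he, f, hf, rfl, _⟩ := b1 X hX
    intro g hg
    simp only [Finset.mem_insert, Finset.mem_singleton] at hg
    rcases hg with rfl | rfl <;> assumption
  obtain ⟨ι⟩ := Function.Embedding.nonempty_of_card_le (α := Fin (k + 1)) (β := B)
    (by rw [Fintype.card_fin, Fintype.card_coe]; exact b3)
  have hne : ∀ i j, i ≠ j → (ι i).1 ≠ (ι j).1 := by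
    intro i j hij h0
    exact hij (ι.injective (Subtype.ext h0))
  have hrE : ∀ e ∈ E, φ (r e) = e := fun e he => hr e he
  have hrAdj : ∀ e ∈ E, ∀ f ∈ E, ¬ Tch e f → G.Adj (r e) (r f) := by
    intro e he f hf hef
    rw [hadj']
    refine ⟨?_, by rw [hrE e he, hrE f hf]; exact hef⟩
    intro h0
    have : e = f := by rw [← hrE e he, ← hrE f hf, h0]
    exact hef (this ▸ Tch.refl e)
  refine ⟨fun i => r '' ((ι i).1 : Set _), ?_, ?_, ?_, ?_⟩
  · intro i
    obtain ⟨e, he, f, hf, h0, _⟩ := b1 _ (ι i).2
    show (r '' ((ι i).1 : Set _)).encard ≤ 2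
    rw [h0]
    refine (Set.encard_image_le _ _).trans ?_
    rw [Finset.coe_insert, Finset.coe_singleton]
    exact (Set.encard_insert_le _ _).trans (by rw [Set.encard_singleton]; norm_num)
  · intro i
    obtain ⟨e, he, f, hf, h0, h3⟩ := b1 _ (ι i).2
    show (G.induce (r '' ((ι i).1 : Set _))).Connected
    rw [h0, Finset.coe_insert, Finset.coe_singleton, Set.image_pair]
    rcases h3 with rfl | h3
    · rw [Set.pair_eq_singleton]
      exact induce_single_connected G _
    · exact induce_pair_connected G (hrAdj e he f hf h3)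
  · intro i j hij
    rw [Set.disjoint_left]
    rintro u ⟨e, he, rfl⟩ ⟨f, hf, hfe⟩
    have he' := hBE _ (ι i).2 he
    have hf' := hBE _ (ι j).2 hf
    have hef : f = e := by rw [← hrE f hf', ← hrE e he', hfe]
    subst hef
    exact Finset.disjoint_left.1 (b2 _ (ι i).2 _ (ι j).2 (hne i j hij)).1 he hf
  · intro i j hij
    obtain ⟨_, e, he, f, hf, hef⟩ := b2 _ (ι i).2 _ (ι j).2 (hne i j hij)
    exact ⟨r e, ⟨e, he, rfl⟩, r f, ⟨f, hf, rfl⟩,
      hrAdj e (hBE _ (ι i).2 he) f (hBE _ (ι j).2 hf) hef⟩

/-- the complement of a line graph is a disjointness graph of pairs -/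
theorem pairGraph_lineGraph (V : Type) (F : SimpleGraph V) : PairGraph (F.lineGraph)ᶜ := by
  classical
  refine ⟨V, fun e => e.1.toFinset, ?_, ?_⟩
  · intro e
    obtain ⟨e, he⟩ := e
    show e.toFinset.card ≤ 2
    induction e using Sym2.ind with
    | _ x y =>
      rw [Sym2.toFinset_mk_eq]
      exact Finset.card_le_two
  · intro e f
    rw [SimpleGraph.compl_adj, SimpleGraph.lineGraph_adj_iff_exists]
    constructor
    · rintro ⟨h1, h2⟩
      refine ⟨h1, ?_⟩
      rw [Finset.disjoint_left]
      intro v hv hv'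
      rw [Sym2.mem_toFinset] at hv hv'
      exact h2 ⟨h1, v, hv, hv'⟩
    · rintro ⟨h1, h2⟩
      refine ⟨h1, ?_⟩
      rintro ⟨_, v, hv, hv'⟩
      exact Finset.disjoint_left.1 h2 (Sym2.mem_toFinset.2 hv) (Sym2.mem_toFinset.2 hv')

/-- (1) Let `G` be a finite graph whose vertices carry sets of at most two points (repetitions
allowed), two different vertices being adjacent if and only if their sets are disjoint; for example,
`G` may be the complement of the line graph of any finite graph or multigraph.  If `G` is not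
`k`-colourable then `G` has a `K_{k+1}` minor all of whose branch sets have at most two vertices.

(2) Consequently, if deleting some stable set from a finite graph `G` leaves a graph as in (1), then
Q1 holds for `G`. -/
theorem result :
    (∀ (U : Type) [Finite U] (G : SimpleGraph U), PairGraph G →
      ∀ k : ℕ, ¬ G.Colorable k → HasSmallCliqueMinor G (k + 1)) ∧
    (∀ (U : Type) [Finite U] (G : SimpleGraph U) (S : Set U),
      (∀ x ∈ S, ∀ y ∈ S, ¬ G.Adj x y) → PairGraph (G.induce Sᶜ) → OffByOne G) := by
  refine ⟨part1, ?_⟩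
  intro U _ G S hS hG j hj
  rcases Nat.eq_zero_or_pos j with h0 | h0
  · subst h0
    exact ⟨fun _ => ∅, fun i => i.elim0, fun i => i.elim0, fun i => i.elim0⟩
  classical
  have h2 : ¬ (G.induce Sᶜ).Colorable (j - 1) := by
    rintro ⟨γ⟩
    apply hj
    refine ⟨SimpleGraph.Coloring.mk (fun x => if h : x ∈ S then (⟨j - 1, by omega⟩ : Fin j) else
      ⟨(γ ⟨x, h⟩).1, by have := (γ ⟨x, h⟩).2; omega⟩) ?_⟩
    intro x y hxy
    by_cases hx : x ∈ S <;> by_cases hy : y ∈ S
    · exact absurd hxy (hS x hx y hy)
    · simp only [hx, hy, dif_pos, dif_neg, not_false_iff, ne_eq, Fin.mk.injEq]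
      have := (γ ⟨y, hy⟩).2
      omega
    · simp only [hx, hy, dif_pos, dif_neg, not_false_iff, ne_eq, Fin.mk.injEq]
      have := (γ ⟨x, hx⟩).2
      omega
    · simp only [hx, hy, dif_neg, not_false_iff, ne_eq, Fin.mk.injEq]
      intro h
      exact γ.valid (v := ⟨x, hx⟩) (w := ⟨y, hy⟩) (by simpa using hxy) (Fin.ext h)
  obtain ⟨f, _, hc, hd, ha⟩ := part1 _ (G.induce Sᶜ) hG (j - 1) h2
  have h3 : TH481.DM.HasCliqueMinor (G.induce Sᶜ) (j - 1 + 1) := ⟨f, hc, hd, ha⟩
  exact TH481.DM.minor_of_minorIn G _ _ j (TH481.DM.minorIn_of_induce G _ _ h3) (by omega)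

end Pool.Agent.Results.MP_b47bfb_co.ComplementsOfLineGraphs
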