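import Pool.Agent.H65.CF.Limit
import Pool.Graph.R_pool_sql_team_seeded_1acbe0a2.Y395.HD.Trans

/-!
MP_b47bfb_co: the least Hadwiger number of very dense graphs.

Among the graphs with `n` vertices in which every vertex has at most `n ^ (1 - δ)` non-neighbours
the least Hadwiger number is asymptotically `n / ⌈δ ^ (-1 / 2)⌉`; the branch sets can be taken to be
cliques of the same size `⌈δ ^ (-1 / 2)⌉`. The consequences for Hadwiger's conjecture and for Q1:
they hold for all such graphs which have colour classes of average size `⌈δ ^ (-1 / 2)⌉` or more, in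
particular for all vertex-transitive ones with independence number at least `C(δ)`.
-/

set_option autoImplicit false

open Filter Topology

namespace Pool.Agent.Results.MP_b47bfb_co.DenseCliqueMinors

/-- `K_k` is a minor of `G`: there are `k` pairwise disjoint vertex sets, each inducing a connected
subgraph, any two of them joined by an edge of `G`. -/
def HasCliqueMinor {V : Type} (G : SimpleGraph V) (k : ℕ) : Prop :=
  ∃ f : Fin k → Set V,
    (∀ i, (G.induce (f i)).Connected) ∧
    (∀ i j, i ≠ j → Disjoint (f i) (f j)) ∧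
    (∀ i j, i ≠ j → ∃ u ∈ f i, ∃ v ∈ f j, G.Adj u v)

/-- There are `k` pairwise disjoint cliques of `G` with `s` vertices each, any two of them joined by
an edge of `G`. (For `s ≥ 1` they are the branch sets of a `K_k` minor.) -/
def HasCliqueFamily {V : Type} (G : SimpleGraph V) (s k : ℕ) : Prop :=
  ∃ f : Fin k → Finset V,
    (∀ i, (f i).card = s ∧ G.IsClique (f i : Set V)) ∧
    (∀ i j, i ≠ j → Disjoint (f i) (f j)) ∧
    (∀ i j, i ≠ j → ∃ u ∈ f i, ∃ v ∈ f j, G.Adj u v)

/-- The set of non-neighbours of `x` (without `x` itself). -/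
def NonNbr {V : Type} (G : SimpleGraph V) (x : V) : Set V := {y | x ≠ y ∧ ¬ G.Adj x y}

/-- The least Hadwiger number of the graphs with `n` vertices in which every vertex has at most `d`
non-neighbours: the least `h` such that some graph of this kind has no `K_{h+1}` minor. -/
noncomputable def leastHadwiger (n : ℕ) (d : ℝ) : ℕ :=
  sInf {h : ℕ | ∃ G : SimpleGraph (Fin n),
    (∀ x, ((NonNbr G x).ncard : ℝ) ≤ d) ∧ ¬ HasCliqueMinor G (h + 1)}

/-- Hadwiger's conjecture holds for `G`: if `G` is not `k`-colourable then `K_{k+1}` is a minor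
of `G`. -/
def Hadwiger {V : Type} (G : SimpleGraph V) : Prop :=
  ∀ k : ℕ, ¬ G.Colorable k → HasCliqueMinor G (k + 1)

/-- Q1 holds for `G`: if `G` is not `k`-colourable then `K_k` is a minor of `G`. -/
def OffByOne {V : Type} (G : SimpleGraph V) : Prop :=
  ∀ k : ℕ, ¬ G.Colorable k → HasCliqueMinor G k

/-- `G` is vertex-transitive. -/
def Transitive {V : Type} (G : SimpleGraph V) : Prop := ∀ x y : V, ∃ φ : G ≃g G, φ x = y

/-- (1) Let `G` be a graph with `n` vertices, every vertex of which has at most `D` non-neighbours,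
and `s ≥ 1` with `(2 ^ (8 s + 4) D) ^ (s ^ 2) ≤ n ^ (s ^ 2 - 1)`, that is,
`D ≤ n ^ (1 - 1 / s ^ 2) / 2 ^ (8 s + 4)`. Then `G` has `⌊n/s⌋` pairwise disjoint cliques with `s`
vertices, any two of which are joined by an edge; so it has a `K_{⌊n/s⌋}` minor.
(2) This is sharp up to a logarithmic factor: for `0 < ε ≤ 1` and `16 s log n ≤ ε n` there is a graph
with `n` vertices, every vertex of which has at most
`(192 s / ε) n ^ (1 - 1 / s ^ 2) (log n) ^ (1 / s ^ 2)` non-neighbours, without a `K_m` minor for all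
`m ≥ (1 / (s + 1) + ε) n`.
(3) So if `δ > 0` is not of the form `1 / r ^ 2`, then the least Hadwiger number of the graphs
with `n` vertices in which every vertex has at most `n ^ (1 - δ)` non-neighbours is asymptotically
`n / ⌈δ ^ (-1 / 2)⌉`.
(4) In (1), Hadwiger's conjecture holds for `G` if `G` is `⌊n/s⌋`-colourable, and Q1 holds for `G` if
`G` is `(⌊n/s⌋ + 1)`-colourable.
(5) In (1), Hadwiger's conjecture holds for `G` if `G` is vertex-transitive and has an independent set
with `α` vertices, `(n / α) (1 + log α) + 2 ≤ n / s` (for `s = 3` this allows `α = 10` and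
`n ≥ 700`). -/
theorem result :
    (∀ (V : Type) [Fintype V] (G : SimpleGraph V) (s D : ℕ), 1 ≤ s →
      (∀ x : V, (NonNbr G x).ncard ≤ D) →
      (2 ^ (8 * s + 4) * D) ^ (s ^ 2) ≤ Fintype.card V ^ (s ^ 2 - 1) →
      HasCliqueFamily G s (Fintype.card V / s) ∧ HasCliqueMinor G (Fintype.card V / s)) ∧
    (∀ (s n : ℕ) (ε : ℝ), 1 ≤ s → 3 ≤ n → 0 < ε → ε ≤ 1 → 16 * s * Real.log n ≤ ε * n →
      ∃ G : SimpleGraph (Fin n),
        (∀ x, ((NonNbr G x).ncard : ℝ) ≤
          (192 * s / ε) * (n : ℝ) ^ (1 - 1 / (s : ℝ) ^ 2) * Real.log n ^ (1 / (s : ℝ) ^ 2)) ∧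
        ∀ m : ℕ, (1 / ((s : ℝ) + 1) + ε) * n ≤ m → ¬ HasCliqueMinor G m) ∧
    (∀ δ : ℝ, 0 < δ → (∀ r : ℕ, δ * (r : ℝ) ^ 2 ≠ 1) →
      Tendsto (fun n : ℕ => (leastHadwiger n ((n : ℝ) ^ (1 - δ)) : ℝ) / n) atTop
        (𝓝 (1 / (⌈1 / Real.sqrt δ⌉₊ : ℝ)))) ∧
    (∀ (V : Type) [Fintype V] (G : SimpleGraph V) (s D : ℕ), 1 ≤ s →
      (∀ x : V, (NonNbr G x).ncard ≤ D) →
      (2 ^ (8 * s + 4) * D) ^ (s ^ 2) ≤ Fintype.card V ^ (s ^ 2 - 1) →
      (G.Colorable (Fintype.card V / s) → Hadwiger G) ∧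
      (G.Colorable (Fintype.card V / s + 1) → OffByOne G)) ∧
    (∀ (V : Type) [Fintype V] (G : SimpleGraph V) (s D : ℕ) (I : Finset V), 1 ≤ s →
      (∀ x : V, (NonNbr G x).ncard ≤ D) →
      (2 ^ (8 * s + 4) * D) ^ (s ^ 2) ≤ Fintype.card V ^ (s ^ 2 - 1) →
      Transitive G → I.Nonempty → (∀ u ∈ I, ∀ v ∈ I, ¬ G.Adj u v) →
      (Fintype.card V : ℝ) / I.card * (1 + Real.log I.card) + 2 ≤ Fintype.card V / s →
      Hadwiger G) := by
  have h1 : ∀ (V : Type) [Fintype V] (G : SimpleGraph V) (s D : ℕ), 1 ≤ s →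
      (∀ x : V, (NonNbr G x).ncard ≤ D) →
      (2 ^ (8 * s + 4) * D) ^ (s ^ 2) ≤ Fintype.card V ^ (s ^ 2 - 1) →
      HasCliqueFamily G s (Fintype.card V / s) ∧ HasCliqueMinor G (Fintype.card V / s) := by
    intro V _ G s D hs hD h
    have hf := Pool.Agent.H65.CF.cliqueFamily G s D hs hD h
    exact ⟨hf, hf.minor hs⟩
  have h4 : ∀ (V : Type) [Fintype V] (G : SimpleGraph V) (s D : ℕ), 1 ≤ s →
      (∀ x : V, (NonNbr G x).ncard ≤ D) →
      (2 ^ (8 * s + 4) * D) ^ (s ^ 2) ≤ Fintype.card V ^ (s ^ 2 - 1) →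
      (G.Colorable (Fintype.card V / s) → Hadwiger G) ∧
      (G.Colorable (Fintype.card V / s + 1) → OffByOne G) := by
    intro V _ G s D hs hD h
    have hm : Pool.Agent.H65.CF.HasCliqueMinor G (Fintype.card V / s) := (h1 V G s D hs hD h).2
    constructor
    · intro hc k hk
      refine hm.mono ?_
      by_contra hlt
      exact hk (hc.mono (by omega))
    · intro hc k hk
      refine hm.mono ?_
      by_contra hlt
      exact hk (hc.mono (by omega))
  refine ⟨h1, ?_, ?_, h4, ?_⟩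
  · intro s n ε hs hn hε hε1 hbig
    exact Pool.Agent.H65.CF.Sh.sharp s hs ε hε hε1 n hn hbig
  · intro δ hδ hne
    exact Pool.Agent.H65.CF.limit δ hδ hne
  · intro V _ G s D I hs hD h htr hI hind hb
    classical
    obtain ⟨K, hK, hKb⟩ := Pool.Agent.Y395.HD.colorable_of_transitive G htr I hind
      (Finset.card_pos.2 hI)
    refine (h4 V G s D hs hD h).1 (hK.mono ?_)
    have h2 : (K : ℝ) + 1 ≤ Fintype.card V / s := by linarith
    have h3 : ((K * s : ℕ) : ℝ) ≤ Fintype.card V := by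
      rw [le_div_iff₀ (by exact_mod_cast hs)] at h2
      push_cast
      nlinarith
    rw [Nat.le_div_iff_mul_le (by omega)]
    exact_mod_cast h3

end Pool.Agent.Results.MP_b47bfb_co.DenseCliqueMinors
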